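import Mathlib
import Pool.Agent.helper48.LeonardDefs
import Pool.Agent.helper48.LeonardFinal

set_option autoImplicit false

/-!
# MP_f4f39d_al, Q1: all Leonard triples extending the `sl₂` Krawtchouk Leonard pair

`mA K d` is the matrix `A`, `mB K d` is the matrix `A*` of the problem.  The theorem determines all
matrices `X = A^ε` for which `(A, A*, X)` is a Leonard triple on `K^{d+1}`.  (For `d = 0` the first
family consists of all `1 × 1` matrices: take `β = γ = 1`, `δ = 0`.)
-/

namespace Pool.Agent.Results.MP_f4f39d_al.Classification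

open Matrix Pool.Agent.helper48.Leonard

/-- **Answer to Q1.** -/
theorem result (K : Type*) [Field K] [IsAlgClosed K] [CharZero K] (d : ℕ)
    (X : Matrix (Fin (d + 1)) (Fin (d + 1)) K) :
    IsLeonardTriple K (Matrix.toLin' (mA K d)) (Matrix.toLin' (mB K d)) (Matrix.toLin' X) ↔
      (∃ α β γ δ : K,
        X = α • (1 : Matrix (Fin (d + 1)) (Fin (d + 1)) K) + β • mA K d + γ • mB K d +
          δ • (mA K d * mB K d - mB K d * mA K d) ∧
        β ^ 2 ≠ 4 * δ ^ 2 ∧ γ ^ 2 ≠ 4 * δ ^ 2 ∧ β ^ 2 + γ ^ 2 ≠ 4 * δ ^ 2) ∨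
      (d = 2 ∧ ∃ α δ ζ : K,
        X = α • (1 : Matrix (Fin (d + 1)) (Fin (d + 1)) K) +
          δ • (mA K d * mB K d - mB K d * mA K d) + ζ • (mA K d * mB K d + mB K d * mA K d) ∧
        δ ^ 2 ≠ ζ ^ 2) := by
  constructor
  · intro h
    rcases Nat.eq_zero_or_pos d with rfl | hd
    · left
      refine ⟨X 0 0, 1, 1, 0, ?_, by norm_num, by norm_num, by norm_num⟩
      ext i j
      have hi : i = 0 := Fin.ext (by simp)
      have hj : j = 0 := Fin.ext (by simp)
      subst hi hj
      simp [mA, mB]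
    · rcases forward hd X h with ⟨α, β, γ, δ, hX, h1, h2, h3⟩ | ⟨hd2, α, δ, ζ, hX, h1⟩
      · left
        refine ⟨α, β, γ, δ, ?_, h1, h2, h3⟩
        rw [hX, combo]
        simp
      · right
        refine ⟨hd2, α, δ, ζ, ?_, h1⟩
        rw [hX, combo]
        simp
  · rintro (⟨α, β, γ, δ, rfl, h1, h2, h3⟩ | ⟨rfl, α, δ, ζ, rfl, h1⟩)
    · have h4 := backward1 (d := d) α β γ δ h1 h2 h3
      rw [combo] at h4
      simpa using h4
    · have h4 := backward2 α δ ζ h1
      rw [combo] at h4
      simpa using h4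

end Pool.Agent.Results.MP_f4f39d_al.Classification
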