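import Mathlib
import Pool.Agent.helper48.LeonardDefs
import Pool.Agent.helper48.LeonardFinal

set_option autoImplicit false

/-!
# MP_f4f39d_al, Q2: the commutators need not lie in the span

`mA K d` is the matrix `A`, `mB K d` is the matrix `A*` of the problem.
-/

namespace Pool.Agent.Results.MP_f4f39d_al.CommutatorSpan

open Matrix Pool.Agent.helper48.Leonard

/-- the commutator `[M, N] = MN - NM` -/
def comm {K : Type*} [Field K] {n : ℕ} (M N : Matrix (Fin n) (Fin n) K) :
    Matrix (Fin n) (Fin n) K := M * N - N * M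

/-- the `K`-linear span of `I, L, M, N` -/
def spanI {K : Type*} [Field K] {n : ℕ} (L M N : Matrix (Fin n) (Fin n) K) :
    Submodule K (Matrix (Fin n) (Fin n) K) := Submodule.span K {1, L, M, N}

/-- `(L, M, N)` is a Leonard triple on `K^n` (for matrices `L, M, N`) -/
def IsLT {K : Type*} [Field K] {n : ℕ} (L M N : Matrix (Fin n) (Fin n) K) : Prop :=
  IsLeonardTriple K (Matrix.toLin' L) (Matrix.toLin' M) (Matrix.toLin' N)

variable {K : Type*} [Field K] {d : ℕ}

lemma comm_AC [CharZero K] : mA K d * (mA K d * mB K d - mB K d * mA K d) -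
    (mA K d * mB K d - mB K d * mA K d) * mA K d = (4 : K) • mB K d := by
  apply Matrix.toLin'.injective
  have hA : Matrix.toLin' (mA K d) = oA K d := toLin_mA
  have hB : Matrix.toLin' (mB K d) = oH K d := toLin_mB
  have h1 := rAB (K := K) (d := d)
  have h2 := rAY (K := K) (d := d)
  simp only [map_sub, map_smul, Matrix.toLin'_mul, hA, hB]
  change oA K d * (oA K d * oH K d - oH K d * oA K d) -
    (oA K d * oH K d - oH K d * oA K d) * oA K d = _
  have h3 : (2 : K) • (oA K d * oY K d) - (2 : K) • (oY K d * oA K d) =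
      (2 : K) • (oA K d * oY K d - oY K d * oA K d) := (smul_sub _ _ _).symm
  rw [h1, mul_smul_comm, smul_mul_assoc, h3, h2, smul_smul]
  norm_num

lemma comm_BC [CharZero K] : mB K d * (mA K d * mB K d - mB K d * mA K d) -
    (mA K d * mB K d - mB K d * mA K d) * mB K d = -((4 : K) • mA K d) := by
  apply Matrix.toLin'.injective
  have hA : Matrix.toLin' (mA K d) = oA K d := toLin_mA
  have hB : Matrix.toLin' (mB K d) = oH K d := toLin_mB
  have h1 := rAB (K := K) (d := d)
  have h2 := rBY (K := K) (d := d)
  simp only [map_sub, map_neg, map_smul, Matrix.toLin'_mul, hA, hB]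
  change oH K d * (oA K d * oH K d - oH K d * oA K d) -
    (oA K d * oH K d - oH K d * oA K d) * oH K d = _
  have h3 : (2 : K) • (oH K d * oY K d) - (2 : K) • (oY K d * oH K d) =
      (2 : K) • (oH K d * oY K d - oY K d * oH K d) := (smul_sub _ _ _).symm
  rw [h1, mul_smul_comm, smul_mul_assoc, h3, h2, smul_neg, smul_smul]
  norm_num

lemma mem_span4 {M : Type*} [AddCommGroup M] [Module K M] {x a b c e : M}
    (h : x ∈ Submodule.span K {a, b, c, e}) :
    ∃ p q r s : K, x = p • a + q • b + r • c + s • e := by
  rw [Submodule.mem_span_insert] at h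
  obtain ⟨p, z, hz, rfl⟩ := h
  rw [Submodule.mem_span_insert] at hz
  obtain ⟨q, z, hz, rfl⟩ := hz
  rw [Submodule.mem_span_pair] at hz
  obtain ⟨r, s, rfl⟩ := hz
  exact ⟨p, q, r, s, by abel⟩

lemma combo_mem_span4 {M : Type*} [AddCommGroup M] [Module K M] {a b c e : M} (p q r s : K) :
    p • a + q • b + r • c + s • e ∈ Submodule.span K {a, b, c, e} := by
  refine Submodule.add_mem _ (Submodule.add_mem _ (Submodule.add_mem _ ?_ ?_) ?_) ?_ <;>
    exact Submodule.smul_mem _ _ (Submodule.subset_span (by simp))

/-- comparison of the upper and lower entries in a linear relation -/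
lemma entries [CharZero K] (hd : 1 ≤ d) {a b c e : K}
    (h : mA K d * mB K d - mB K d * mA K d = combo (mA K d) a b c e 0) : e = 1 := by
  have h0 : combo (mA K d) 0 0 0 1 0 = combo (mA K d) a b c e 0 := by
    rw [← h, combo]; simp
  have hu := congrArg (fun M => up M 0) h0
  have hl := congrArg (fun M => lo M (0 + 1)) h0
  have hd' : (0 : ℕ) + 1 < d + 1 := by omega
  rw [combo_up _ _ _ _ _ _ _ hd', combo_up _ _ _ _ _ _ _ hd'] at hu
  rw [combo_lo _ _ _ _ _ _ _ hd', combo_lo _ _ _ _ _ _ _ hd'] at hl
  have h1 := mul_left_cancel₀ (mA_irred.up_ne (K := K) hd') hu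
  have h2 := mul_left_cancel₀ (mA_irred.lo_ne (K := K) (by omega) hd') hl
  linear_combination (1 / 4) * h1 - (1 / 4) * h2

/-- **Answer to Q2.** -/
theorem result (K : Type*) [Field K] [IsAlgClosed K] [CharZero K] (d : ℕ) (hd : 1 ≤ d) :
    (∃ X, IsLT (mA K d) (mB K d) X ∧ comm (mA K d) (mB K d) ∉ spanI (mA K d) (mB K d) X) ∧
    ∀ X, IsLT (mA K d) (mB K d) X →
      ((comm (mA K d) (mB K d) ∈ spanI (mA K d) (mB K d) X ∧
        comm (mB K d) X ∈ spanI (mA K d) (mB K d) X ∧
        comm X (mA K d) ∈ spanI (mA K d) (mB K d) X) ↔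
      ∃ α β γ δ : K, δ ≠ 0 ∧
        X = α • 1 + β • mA K d + γ • mB K d + δ • comm (mA K d) (mB K d)) := by
  unfold comm spanI IsLT
  constructor
  · refine ⟨combo (mA K d) 0 1 1 0 0, backward1 0 1 1 0 (by norm_num) (by norm_num)
      (by norm_num), ?_⟩
    intro h
    obtain ⟨p, q, r, s, h1⟩ := mem_span4 h
    have h2 : (0 : K) = 1 := by
      apply entries hd (a := p) (b := q + s) (c := r + s)
      rw [h1]
      simp only [combo]
      module
    exact zero_ne_one h2
  · intro X hX
    constructor
    · rintro ⟨h, -, -⟩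
      obtain ⟨p, q, r, s, h1⟩ := mem_span4 h
      rcases forward hd X hX with ⟨α, β, γ, δ, rfl, -, -, -⟩ | ⟨rfl, α, δ, ζ, rfl, -⟩
      · refine ⟨α, β, γ, δ, ?_, by rw [combo]; simp⟩
        rintro rfl
        have h2 : (0 : K) = 1 := by
          apply entries hd (a := p + s * α) (b := q + s * β) (c := r + s * γ)
          rw [h1]
          simp only [combo]
          module
        exact zero_ne_one h2
      · have h0 : combo (mA K 2) 0 0 0 1 0 =
            combo (mA K 2) (p + s * α) q r (s * δ) (s * ζ) := by
          have : combo (mA K 2) 0 0 0 1 0 = mA K 2 * mB K 2 - mB K 2 * mA K 2 := by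
            rw [combo]; simp
          rw [this, h1]
          simp only [combo]
          module
        have hu := congrArg (fun M => up M 0) h0
        have hl := congrArg (fun M => lo M (0 + 1)) h0
        have hu' := congrArg (fun M => up M 1) h0
        have hl' := congrArg (fun M => lo M (1 + 1)) h0
        rw [combo_up _ _ _ _ _ _ _ (by norm_num), combo_up _ _ _ _ _ _ _ (by norm_num)] at hu hu'
        rw [combo_lo _ _ _ _ _ _ _ (by norm_num), combo_lo _ _ _ _ _ _ _ (by norm_num)] at hl hl'
        have h1 := mul_left_cancel₀ (mA_irred.up_ne (K := K) (by norm_num)) hu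
        have h2 := mul_left_cancel₀ (mA_irred.lo_ne (K := K) (by norm_num) (by norm_num)) hl
        have h1' := mul_left_cancel₀ (mA_irred.up_ne (K := K) (by norm_num)) hu'
        have h2' := mul_left_cancel₀ (mA_irred.lo_ne (K := K) (by norm_num) (by norm_num)) hl'
        push_cast at h1 h2 h1' h2'
        have hsδ : s * δ = 1 := by
          linear_combination (1 / 4) * h1 - (1 / 4) * h2
        have hsζ : s * ζ = 0 := by
          linear_combination (-1 / 8) * h1 - (1 / 8) * h2 + (1 / 8) * h1' + (1 / 8) * h2'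
        have hs : s ≠ 0 := by rintro rfl; simp at hsδ
        have hδ : δ ≠ 0 := by rintro rfl; simp at hsδ
        have hζ : ζ = 0 := (mul_eq_zero.1 hsζ).resolve_left hs
        subst hζ
        exact ⟨α, 0, 0, δ, hδ, by rw [combo]; simp⟩
    · rintro ⟨α, β, γ, δ, hδ, rfl⟩
      have h1 := comm_AC (K := K) (d := d)
      have h2 := comm_BC (K := K) (d := d)
      set A := mA K d
      set B := mB K d
      set C := A * B - B * A with hC
      set X := α • (1 : Matrix (Fin (d + 1)) (Fin (d + 1)) K) + β • A + γ • B + δ • C with hX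
      have hCX : C = (-(α / δ)) • (1 : Matrix (Fin (d + 1)) (Fin (d + 1)) K) + (-(β / δ)) • A +
          (-(γ / δ)) • B + (1 / δ) • X := by
        rw [hX]
        match_scalars <;> field_simp <;> ring
      have hBX : B * X - X * B = -(β • C) + δ • (-((4 : K) • A)) := by
        rw [← h2, hX, hC]
        simp only [mul_add, add_mul, mul_sub, sub_mul, mul_smul_comm, smul_mul_assoc, mul_one,
          one_mul]
        module
      have hXA : X * A - A * X = -(γ • C) - δ • ((4 : K) • B) := by
        rw [← h1, hX, hC]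
        simp only [mul_add, add_mul, mul_sub, sub_mul, mul_smul_comm, smul_mul_assoc, mul_one,
          one_mul]
        module
      have hCmem : C ∈ Submodule.span K {1, A, B, X} := by
        rw [hCX]; exact combo_mem_span4 _ _ _ _
      have hAmem : A ∈ Submodule.span K {1, A, B, X} := Submodule.subset_span (by simp)
      have hBmem : B ∈ Submodule.span K {1, A, B, X} := Submodule.subset_span (by simp)
      refine ⟨hCmem, ?_, ?_⟩
      · rw [hBX]
        exact Submodule.add_mem _ (Submodule.neg_mem _ (Submodule.smul_mem _ _ hCmem))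
          (Submodule.smul_mem _ _ (Submodule.neg_mem _ (Submodule.smul_mem _ _ hAmem)))
      · rw [hXA]
        exact Submodule.sub_mem _ (Submodule.neg_mem _ (Submodule.smul_mem _ _ hCmem))
          (Submodule.smul_mem _ _ (Submodule.smul_mem _ _ hBmem))

end Pool.Agent.Results.MP_f4f39d_al.CommutatorSpan
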